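import Pool.Agent.N89.CI.CIK

/-!
# Lang's conjecture for almost all complete intersections in projective families over products of CM
elliptic curves

`E_i : y² = x³ + a_i x` or `y² = x³ + b_i` (`i = 1, …, r`) are elliptic curves with complex
multiplication, of arbitrary rank, embedded as plane cubics, and `A = E_1 × … × E_r`. Let
`𝒯 ⊆ A × ℙᵐ` be any closed subvariety, given by multihomogeneous equations `Φ_l (V; T) = 0`, whose
fibres over the points of `A` modulo large primes `p` have at most `3/2 p^κ` points. By the theorem of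
Lang and Weil this holds if all geometric fibres of `𝒯 → A` are irreducible of dimension `κ`; it is
clear for `𝒯 = A × ℙ^κ`. Consider all the complete intersections of relative dimension `0`

  `X_c = 𝒯 ∩ {F_1 = … = F_κ = 0}`,

where `F_j` runs through all forms of multidegree `(d_j; e_j)` in the coordinates `V_i` of the plane
cubics and in `T`; `d_j ∈ ℕʳ` and `e_j ≥ 2` are arbitrary. `X_c` has dimension `r` and is generically
finite over `A`, in general not a Galois cover; for large `d_j`, `e_j` and smooth `𝒯` the general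
`X_c` is a smooth projective variety with ample canonical class.

Theorem: almost all of these varieties, ordered by the size `H` of the coefficients, have no rational
point, although `A(ℚ)` may be infinite of any rank:

* Over `ℚ` the number of the exceptional `c ∈ ℤⁿ`, `|c| ≤ H`, is `O(H ^ (n - 1/5 + ε))`.
* Over every number field `K` of degree `N`, with coefficients in `𝓞 K` of size at most `H`, it is
  at most `(2H+1) ^ (nN) exp (-c₀ log H / log log H)`.

The proof: the Mordell-Weil sieve at the primes `p` with smooth `p + 1` at which all `E_i` are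
supersingular (abstract sieve theorems of the starting library), and a new local input: for at least
`1/25` of the coefficient vectors modulo `p` the complete intersection has no point over a given
point of `A`, since the values of forms of degree at least two at any three different points of `ℙᵐ`
are independent (sieve inequality of order three).
-/

set_option autoImplicit false

namespace Pool.Agent.Results.MP_2ae8fe_ag.CompleteIntersections

open MvPolynomial NumberField

open scoped LinearAlgebra.Projectivization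

/-- `V` is a vector of homogeneous coordinates of a point of the curve `y² = x³ + a x + b`. -/
def OnCurve {k : Type} [Field k] (a b : ℤ) (V : Fin 3 → k) : Prop :=
  V ≠ 0 ∧ V 1 ^ 2 * V 2 = V 0 ^ 3 + a * V 0 * V 2 ^ 2 + b * V 2 ^ 3

/-- The value at `V, T` of a polynomial in the coordinates `V i j` (`i : Fin r`, `j : Fin 3`) of `r`
plane cubics and in the coordinates `T x` (`x : Fin (m + 1)`) of `ℙᵐ`; `φ` is applied to the
coefficients. -/
noncomputable def value {R k : Type} [CommRing R] [CommRing k] (φ : R →+* k) {r m : ℕ}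
    (F : MvPolynomial ((Fin r × Fin 3) ⊕ Fin (m + 1)) R) (V : Fin r → Fin 3 → k)
    (T : Fin (m + 1) → k) : k :=
  eval₂ φ (Sum.elim (fun ij => V ij.1 ij.2) T) F

/-- `F` is homogeneous of degree `d i` in the coordinates of the `i`-th plane cubic and of degree `e`
in `T`. -/
def Multihomogeneous {R : Type} [CommRing R] {r m : ℕ}
    (F : MvPolynomial ((Fin r × Fin 3) ⊕ Fin (m + 1)) R) (d : Fin r → ℕ) (e : ℕ) : Prop :=
  ∀ x ∈ F.support, (∀ i, ∑ j, x (Sum.inl (i, j)) = d i) ∧ ∑ s, x (Sum.inr s) = e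

/-- The index type of the coefficients of `F_1, …, F_κ`: a number `j`, the exponents of a monomial of
degree `e j` in `T_0, …, T_m`, and for each `i` the exponents of a monomial of degree `d j i` in the
three coordinates `V i`. -/
abbrev Coeffs {r κ : ℕ} (m : ℕ) (d : Fin κ → Fin r → ℕ) (e : Fin κ → ℕ) : Type :=
  Σ j : Fin κ, (↥(Finset.piAntidiag (Finset.univ : Finset (Fin (m + 1))) (e j)) ×
    ((i : Fin r) → ↥(Finset.piAntidiag (Finset.univ : Finset (Fin 3)) (d j i))))

/-- The value of the form `F_j` with the coefficients `c`. -/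
noncomputable def form {k : Type} [CommRing k] {r κ m : ℕ} {d : Fin κ → Fin r → ℕ}
    {e : Fin κ → ℕ} (c : Coeffs m d e → k) (j : Fin κ) (V : Fin r → Fin 3 → k)
    (T : Fin (m + 1) → k) : k :=
  ∑ s : ↥(Finset.piAntidiag (Finset.univ : Finset (Fin (m + 1))) (e j)) ×
      ((i : Fin r) → ↥(Finset.piAntidiag (Finset.univ : Finset (Fin 3)) (d j i))),
    c ⟨j, s⟩ * ((∏ i, ∏ x, V i x ^ (s.2 i).1 x) * ∏ x, T x ^ s.1.1 x)

/-- `X_c`, the subvariety `Φ_l = 0`, `F_j = 0` of `E_1 × … × E_r × ℙᵐ`, has a `K`-rational point. -/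
def HasPoint {R K : Type} [CommRing R] [Field K] (φ : R →+* K) {r κ m q : ℕ} (a b : Fin r → ℤ)
    (Φ : Fin q → MvPolynomial ((Fin r × Fin 3) ⊕ Fin (m + 1)) R)
    {d : Fin κ → Fin r → ℕ} {e : Fin κ → ℕ} (c : Coeffs m d e → K) : Prop :=
  ∃ (V : Fin r → Fin 3 → K) (T : Fin (m + 1) → K), (∀ i, OnCurve (a i) (b i) (V i)) ∧ T ≠ 0 ∧
    (∀ l, value φ (Φ l) V T = 0) ∧ ∀ j, form c j V T = 0

/-- **Almost all complete intersections in projective families over `A` have no rational point.** -/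
theorem result (r : ℕ) (a b : Fin r → ℤ) (hab : ∀ i, a i * b i = 0 ∧ (a i ≠ 0 ∨ b i ≠ 0))
    (κ : ℕ) (hκ : 1 ≤ κ) (d : Fin κ → Fin r → ℕ) (e : Fin κ → ℕ) (he : ∀ j, 2 ≤ e j) :
    -- over `ℚ`
    (∀ (m q : ℕ) (Φ : Fin q → MvPolynomial ((Fin r × Fin 3) ⊕ Fin (m + 1)) ℤ)
      (d' : Fin q → Fin r → ℕ) (e' : Fin q → ℕ), (∀ l, Multihomogeneous (Φ l) (d' l) (e' l)) →
      (∃ M p₁ : ℕ, 0 < M ∧ ∀ (p : ℕ) [Fact p.Prime], p₁ ≤ p → M ∣ p + 1 →
        ∀ V : Fin r → Fin 3 → ZMod p, (∀ i, OnCurve (a i) (b i) (V i)) →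
          (({P : ℙ (ZMod p) (Fin (m + 1) → ZMod p) |
            ∀ l, value (Int.castRingHom (ZMod p)) (Φ l) V P.rep = 0}.ncard : ℕ) : ℝ) ≤
            3 / 2 * (p : ℝ) ^ κ) →
      ∀ ε : ℝ, 0 < ε → ∃ C : ℝ, ∀ H : ℕ, 1 ≤ H →
        (({c : Coeffs m d e → ℤ | (∀ s, |c s| ≤ H) ∧
          HasPoint (Int.castRingHom ℚ) a b Φ (fun s => (c s : ℚ))}.ncard : ℕ) : ℝ) ≤
          C * (H : ℝ) ^ ((Fintype.card (Coeffs m d e) : ℝ) - 1 / 5 + ε)) ∧
    -- over a number field
    (∀ (K : Type) [Field K] [NumberField K] (N : ℕ) (ω : Module.Basis (Fin N) ℤ (𝓞 K))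
      (m q : ℕ) (Φ : Fin q → MvPolynomial ((Fin r × Fin 3) ⊕ Fin (m + 1)) (𝓞 K))
      (d' : Fin q → Fin r → ℕ) (e' : Fin q → ℕ), (∀ l, Multihomogeneous (Φ l) (d' l) (e' l)) →
      (∃ p₁ : ℕ, ∀ (k : Type) [Field k] [Fintype k] (p : ℕ), p.Prime → p₁ ≤ p →
        (Fintype.card k = p ∨ Fintype.card k = p ^ 2) → ∀ φ : 𝓞 K →+* k, Function.Surjective φ →
        ∀ V : Fin r → Fin 3 → k, (∀ i, OnCurve (a i) (b i) (V i)) →
          (({P : ℙ k (Fin (m + 1) → k) | ∀ l, value φ (Φ l) V P.rep = 0}.ncard : ℕ) : ℝ) ≤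
            3 / 2 * (Fintype.card k : ℝ) ^ κ) →
      ∃ c₀ : ℝ, 0 < c₀ ∧ ∃ H₀ : ℕ, ∀ H : ℕ, H₀ ≤ H →
        (({c : Coeffs m d e × Fin N → ℤ | (∀ s, |c s| ≤ H) ∧
          HasPoint (algebraMap (𝓞 K) K) a b Φ
            (fun s => ((∑ i, c (s, i) • ω i : 𝓞 K) : K))}.ncard : ℕ) : ℝ) ≤
          (2 * (H : ℝ) + 1) ^ (Fintype.card (Coeffs m d e) * N) *
            Real.exp (-c₀ * (Real.log H / Real.log (Real.log H)))) ∧
    -- the case of complete intersections in `A × ℙ^κ`, over `ℚ`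
    (∀ ε : ℝ, 0 < ε → ∃ C : ℝ, ∀ H : ℕ, 1 ≤ H →
      (({c : Coeffs κ d e → ℤ | (∀ s, |c s| ≤ H) ∧
        HasPoint (Int.castRingHom ℚ) a b (fun l : Fin 0 => l.elim0)
          (fun s => (c s : ℚ))}.ncard : ℕ) : ℝ) ≤
        C * (H : ℝ) ^ ((Fintype.card (Coeffs κ d e) : ℝ) - 1 / 5 + ε)) ∧
    -- the case of complete intersections in `A × ℙ^κ`, over a number field
    (∀ (K : Type) [Field K] [NumberField K] (N : ℕ) (ω : Module.Basis (Fin N) ℤ (𝓞 K)),
      ∃ c₀ : ℝ, 0 < c₀ ∧ ∃ H₀ : ℕ, ∀ H : ℕ, H₀ ≤ H →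
        (({c : Coeffs κ d e × Fin N → ℤ | (∀ s, |c s| ≤ H) ∧
          HasPoint (algebraMap (𝓞 K) K) a b (fun l : Fin 0 => l.elim0)
            (fun s => ((∑ i, c (s, i) • ω i : 𝓞 K) : K))}.ncard : ℕ) : ℝ) ≤
          (2 * (H : ℝ) + 1) ^ (Fintype.card (Coeffs κ d e) * N) *
            Real.exp (-c₀ * (Real.log H / Real.log (Real.log H)))) := by
  refine ⟨?_, ?_, ?_, ?_⟩
  · rintro m q Φ d' e' hΦ ⟨M, p₁, hM, hpts⟩ ε hε
    exact Pool.Agent.N89.CI.ciQ r m κ hκ a b hab Φ d' e' hΦ M p₁ hM hpts d e he ε hε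
  · rintro K _ _ N ω m q Φ d' e' hΦ ⟨p₁, hpts⟩
    exact Pool.Agent.N89.CI.ciK r m κ hκ a b hab K N ω Φ d' e' hΦ p₁ hpts d e he
  · intro ε hε
    obtain ⟨C, hC⟩ := Pool.Agent.N89.CI.ciPQ r κ hκ a b hab d e he ε hε
    refine ⟨C, fun H hH => le_trans (le_of_eq ?_) (hC H hH)⟩
    congr 2
    ext c
    refine and_congr_right fun _ => exists_congr fun V => exists_congr fun T =>
      and_congr_right fun _ => and_congr_right fun _ => ?_
    exact ⟨fun h => h.2, fun h => ⟨fun l => l.elim0, h⟩⟩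
  · intro K _ _ N ω
    obtain ⟨c₀, hc₀, H₀, hH⟩ := Pool.Agent.N89.CI.ciPK r κ hκ a b hab K N ω d e he
    refine ⟨c₀, hc₀, H₀, fun H hH' => le_trans (le_of_eq ?_) (hH H hH')⟩
    congr 2
    ext c
    refine and_congr_right fun _ => exists_congr fun V => exists_congr fun T =>
      and_congr_right fun _ => and_congr_right fun _ => ?_
    exact ⟨fun h => h.2, fun h => ⟨fun l => l.elim0, h⟩⟩

end Pool.Agent.Results.MP_2ae8fe_ag.CompleteIntersections
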